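import Pool.Agent.Q295.PN.StmA

/-!
# Project PN: elementary facts on expectations, averages and the noise function
-/

set_option autoImplicit false

namespace Pool.Agent.Q124.PN

open Finset Pool.Agent.Q295.PN

section bern

variable {ι : Type} [Fintype ι] [DecidableEq ι]

theorem wt_nonneg {p : ℝ} (hp : 0 < p) (hp1 : p < 1) (κ : ι → Bool) : 0 ≤ wt p κ := by
  unfold wt
  refine prod_nonneg (fun i _ => ?_)
  split_ifs
  · exact hp.le
  · linarith

theorem sum_wt (p : ℝ) : ∑ κ : ι → Bool, wt p κ = 1 := by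
  unfold wt
  have h := Finset.prod_univ_sum (fun _ : ι => (univ : Finset Bool))
    (fun (_ : ι) (b : Bool) => (if b = true then p else 1 - p))
  rw [Fintype.piFinset_univ] at h
  rw [← h]
  simp

theorem Ex_const (p c : ℝ) : Ex p (fun _ : ι → Bool => c) = c := by
  unfold Ex
  rw [← Finset.sum_mul, sum_wt, one_mul]

theorem Ex_mono {p : ℝ} (hp : 0 < p) (hp1 : p < 1) {f g : (ι → Bool) → ℝ} (h : ∀ κ, f κ ≤ g κ) :
    Ex p f ≤ Ex p g := by
  unfold Ex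
  exact sum_le_sum (fun κ _ => mul_le_mul_of_nonneg_left (h κ) (wt_nonneg hp hp1 κ))

theorem Ex_nonneg {p : ℝ} (hp : 0 < p) (hp1 : p < 1) {f : (ι → Bool) → ℝ} (h : ∀ κ, 0 ≤ f κ) :
    0 ≤ Ex p f := by
  unfold Ex
  exact sum_nonneg (fun κ _ => mul_nonneg (wt_nonneg hp hp1 κ) (h κ))

theorem Ex_add (p : ℝ) (f g : (ι → Bool) → ℝ) :
    Ex p (fun κ => f κ + g κ) = Ex p f + Ex p g := by
  unfold Ex
  rw [← sum_add_distrib]
  exact sum_congr rfl (fun κ _ => by ring)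

theorem Ex_mul (p c : ℝ) (f : (ι → Bool) → ℝ) : Ex p (fun κ => c * f κ) = c * Ex p f := by
  unfold Ex
  rw [mul_sum]
  exact sum_congr rfl (fun κ _ => by ring)

theorem Ex_sum {α : Type} (p : ℝ) (s : Finset α) (f : α → (ι → Bool) → ℝ) :
    Ex p (fun κ => ∑ a ∈ s, f a κ) = ∑ a ∈ s, Ex p (f a) := by
  unfold Ex
  rw [sum_comm]
  exact sum_congr rfl (fun κ _ => by rw [mul_sum])

theorem QQ_nonneg {p : ℝ} (hp : 0 < p) (hp1 : p < 1) (f : (ι → Bool) → ℝ) (V : Finset ι) :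
    0 ≤ QQ p f V := Ex_nonneg hp hp1 (fun _ => sq_nonneg _)

theorem QQ_mono {p : ℝ} (hp : 0 < p) (hp1 : p < 1) {f g : (ι → Bool) → ℝ}
    (h0 : ∀ κ, 0 ≤ f κ) (h : ∀ κ, f κ ≤ g κ) (V : Finset ι) : QQ p f V ≤ QQ p g V := by
  unfold QQ
  refine Ex_mono hp hp1 (fun κ => ?_)
  have h1 : 0 ≤ Av p V f κ := Ex_nonneg hp hp1 (fun κ' => h0 _)
  have h2 : Av p V f κ ≤ Av p V g κ := Ex_mono hp hp1 (fun κ' => h _)
  exact pow_le_pow_left₀ h1 h2 2

theorem SS_nonneg {p : ℝ} (hp : 0 < p) (hp1 : p < 1) (f : (ι → Bool) → ℝ) {s : ℝ} (hs : 0 ≤ s)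
    (hs1 : s ≤ 1) : 0 ≤ SS p f s := by
  unfold SS
  refine sum_nonneg (fun V _ => mul_nonneg (mul_nonneg (pow_nonneg hs _)
    (pow_nonneg (by linarith) _)) (QQ_nonneg hp hp1 f V))

theorem SS_mono {p : ℝ} (hp : 0 < p) (hp1 : p < 1) {f g : (ι → Bool) → ℝ}
    (h0 : ∀ κ, 0 ≤ f κ) (h : ∀ κ, f κ ≤ g κ) {s : ℝ} (hs : 0 ≤ s) (hs1 : s ≤ 1) :
    SS p f s ≤ SS p g s := by
  unfold SS
  refine sum_le_sum (fun V _ => mul_le_mul_of_nonneg_left (QQ_mono hp hp1 h0 h V)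
    (mul_nonneg (pow_nonneg hs _) (pow_nonneg (by linarith) _)))

theorem SS_zero (p : ℝ) (f : (ι → Bool) → ℝ) : SS p f 0 = QQ p f ∅ := by
  unfold SS
  rw [sum_eq_single ∅]
  · simp
  · intro V _ hV
    have : V.card ≠ 0 := fun h => hV (card_eq_zero.mp h)
    rw [zero_pow this]
    ring
  · intro h
    exact absurd (mem_univ _) h

theorem sum_pow_weights (s : ℝ) :
    ∑ V : Finset ι, s ^ V.card * (1 - s) ^ (Fintype.card ι - V.card) = 1 := by
  have h := Finset.sum_pow_mul_eq_add_pow s (1 - s) (univ : Finset ι)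
  rw [powerset_univ, card_univ] at h
  rw [h]
  rw [show s + (1 - s) = 1 by ring, one_pow]

/-- Sums over pairs (set, element of the set) and (set, element outside). -/
theorem sum_mem_eq_sum_not_mem (F : Finset ι → ι → ℝ) :
    ∑ V : Finset ι, ∑ y ∈ V, F (V.erase y) y = ∑ V : Finset ι, ∑ y ∈ univ \ V, F V y := by
  rw [sum_sigma', sum_sigma']
  refine Finset.sum_nbij' (fun x => ⟨x.1.erase x.2, x.2⟩) (fun x => ⟨insert x.2 x.1, x.2⟩)
    ?_ ?_ ?_ ?_ ?_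
  · rintro ⟨V, y⟩ h
    simp only [mem_sigma, mem_univ, true_and] at h ⊢
    simp
  · rintro ⟨V, y⟩ h
    simp only [mem_sigma, mem_univ, true_and] at h ⊢
    simp
  · rintro ⟨V, y⟩ h
    simp only [mem_sigma, mem_univ, true_and] at h
    simp only
    rw [insert_erase h]
  · rintro ⟨V, y⟩ h
    simp only [mem_sigma, mem_univ, true_and, mem_sdiff] at h
    simp only
    rw [erase_insert h]
  · rintro ⟨V, y⟩ h
    rfl

end bern

end Pool.Agent.Q124.PN
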