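import Pool.Agent.Q124.PN.Base

/-!
# Project PN, job CM: the main inequality of part C
-/

set_option autoImplicit false

namespace Pool.Agent.Q124.PN

open Finset Pool.Agent.Q295.PN

section bern

variable {ι : Type} [Fintype ι] [DecidableEq ι]

theorem sum_card_coeff (hFQ : S_FQ) (hFD : S_FD) (hFS : S_FS) {p : ℝ} (hp : 0 < p) (hp1 : p < 1)
    (L : (ι → Bool) → ℝ) (s : ℝ) :
    ∑ T : Finset ι, (T.card : ℝ) * ((fh p L T) ^ 2 * s ^ (T.card - 1)) =
      p * (1 - p) * ∑ x : ι, SS p (DD L x) s := by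
  have h1 : ∑ T : Finset ι, (T.card : ℝ) * ((fh p L T) ^ 2 * s ^ (T.card - 1)) =
      ∑ T : Finset ι, ∑ x ∈ T, (fh p L (insert x (T.erase x))) ^ 2 * s ^ (T.erase x).card := by
    refine sum_congr rfl (fun T _ => ?_)
    have : ∀ x ∈ T, (fh p L (insert x (T.erase x))) ^ 2 * s ^ (T.erase x).card =
        (fh p L T) ^ 2 * s ^ (T.card - 1) := by
      intro x hx
      rw [insert_erase hx, card_erase_of_mem hx]
    rw [sum_congr rfl this, sum_const, nsmul_eq_mul]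
  rw [h1, sum_mem_eq_sum_not_mem (fun T x => (fh p L (insert x T)) ^ 2 * s ^ T.card)]
  have h2 : ∀ T : Finset ι, ∑ x ∈ univ \ T, (fh p L (insert x T)) ^ 2 * s ^ T.card =
      ∑ x : ι, p * (1 - p) * ((fh p (DD L x) T) ^ 2 * s ^ T.card) := by
    intro T
    rw [← sum_sdiff (subset_univ T)]
    have h3 : ∑ x ∈ T, p * (1 - p) * ((fh p (DD L x) T) ^ 2 * s ^ T.card) = 0 := by
      refine sum_eq_zero (fun x hx => ?_)
      rw [(hFD ι p L x T hp hp1).2 hx]
      ring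
    rw [h3, add_zero]
    refine sum_congr rfl (fun x hx => ?_)
    rw [(hFD ι p L x T hp hp1).1 (mem_sdiff.mp hx).2, mul_pow, Real.sq_sqrt
      (mul_nonneg hp.le (by linarith))]
    ring
  rw [sum_congr rfl (fun T _ => h2 T), sum_comm, mul_sum]
  refine sum_congr rfl (fun x _ => ?_)
  rw [← mul_sum, hFS hFQ ι p (DD L x) s hp hp1]

end bern

/-- **JOB CM.** -/
theorem cm : S_CM := by
  intro hFQ hFD hFS hGW hLV hL1 ι _ _ p B R s₀ ρ k L h hp hp1 hB hR hs hs2 hρ hρ1 hD hr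
  have hw : ∀ T : Finset ι, 0 ≤ (fh p L T) ^ 2 := fun T => sq_nonneg _
  have hpp : 0 ≤ p * (1 - p) := mul_nonneg hp.le (by linarith)
  -- the difference of the noise function
  have h1 : SS p L ρ - SS p L 0 =
      ∑ T ∈ (univ : Finset (Finset ι)).filter (fun T => T ≠ ∅), (fh p L T) ^ 2 * ρ ^ T.card := by
    rw [hFS hFQ ι p L ρ hp hp1, hFS hFQ ι p L 0 hp hp1]
    have h2 : ∑ T : Finset ι, (fh p L T) ^ 2 * (0 : ℝ) ^ T.card = (fh p L ∅) ^ 2 := by
      rw [sum_eq_single ∅]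
      · simp
      · intro T _ hT
        rw [zero_pow (fun hc => hT (card_eq_zero.mp hc)), mul_zero]
      · intro hc
        exact absurd (mem_univ _) hc
    rw [h2, ← sum_filter_add_sum_filter_not univ (fun T : Finset ι => T ≠ ∅)]
    have h3 : (univ : Finset (Finset ι)).filter (fun T => ¬ T ≠ ∅) = {∅} := by
      ext T
      simp
    rw [h3, sum_singleton, card_empty, pow_zero, mul_one, add_sub_cancel_right]
  refine ⟨?_, ?_⟩
  · rw [h1]
    exact sum_nonneg (fun T _ => mul_nonneg (hw T) (pow_nonneg hρ _))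
  have hVr : Vr p L = ∑ T ∈ (univ : Finset (Finset ι)).filter (fun T => T ≠ ∅), (fh p L T) ^ 2 :=
    (hFQ ι p L hp hp1).2.2.2
  have hinv : 1 ≤ s₀⁻¹ := by
    rw [one_le_inv₀ hs]
    linarith
  -- every term
  have hterm : ∀ T : Finset ι, T ≠ ∅ → (fh p L T) ^ 2 * ρ ^ T.card ≤
      ρ ^ k * (fh p L T) ^ 2 +
        (s₀⁻¹) ^ k * ((T.card : ℝ) * ((fh p L T) ^ 2 * s₀ ^ (T.card - 1))) := by
    intro T hT
    have hT1 : 1 ≤ T.card := card_pos.mpr (nonempty_iff_ne_empty.mpr hT)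
    have hb : 0 ≤ (s₀⁻¹) ^ k * ((T.card : ℝ) * ((fh p L T) ^ 2 * s₀ ^ (T.card - 1))) := by
      have := hw T
      positivity
    rcases le_or_gt k T.card with hk | hk
    · have h2 : ρ ^ T.card ≤ ρ ^ k := pow_le_pow_of_le_one hρ hρ1 hk
      have h3 := mul_le_mul_of_nonneg_left h2 (hw T)
      linarith
    · have h2 : ρ ^ T.card ≤ 1 := pow_le_one₀ hρ hρ1
      have h3 := mul_le_mul_of_nonneg_left h2 (hw T)
      have h4 : 1 ≤ (s₀⁻¹) ^ k * s₀ ^ (T.card - 1) := by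
        obtain ⟨m, hm⟩ : ∃ m, k = (T.card - 1) + m := ⟨k - (T.card - 1), by omega⟩
        rw [hm, pow_add, mul_comm ((s₀⁻¹) ^ (T.card - 1)) _, mul_assoc, ← mul_pow,
          inv_mul_cancel₀ hs.ne', one_pow, mul_one]
        exact one_le_pow₀ hinv
      have h5 : (1 : ℝ) ≤ (T.card : ℝ) := by exact_mod_cast hT1
      have h6 : (fh p L T) ^ 2 ≤
          (s₀⁻¹) ^ k * ((T.card : ℝ) * ((fh p L T) ^ 2 * s₀ ^ (T.card - 1))) := by
        calc (fh p L T) ^ 2 = 1 * ((fh p L T) ^ 2 * 1) := by ring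
          _ ≤ (T.card : ℝ) * ((fh p L T) ^ 2 * ((s₀⁻¹) ^ k * s₀ ^ (T.card - 1))) :=
              mul_le_mul h5 (mul_le_mul_of_nonneg_left h4 (hw T))
                (mul_nonneg (hw T) zero_le_one) (by positivity)
          _ = _ := by ring
      have h7 : 0 ≤ ρ ^ k * (fh p L T) ^ 2 := mul_nonneg (pow_nonneg hρ _) (hw T)
      linarith
  -- the low part
  have hlow : ∑ T : Finset ι, (T.card : ℝ) * ((fh p L T) ^ 2 * s₀ ^ (T.card - 1)) ≤
      Real.exp (8 * B * R * s₀) *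
        (p * ∑ x : ι, (Ex p (h x)) ^ 2 + p * Fintype.card ι * Real.exp (-R)) := by
    rw [sum_card_coeff hFQ hFD hFS hp hp1 L s₀]
    have h2 : ∀ x : ι, SS p (DD L x) s₀ ≤
        ((Ex p (h x)) ^ 2 + Real.exp (-R)) * Real.exp (8 * B * R * s₀) := by
      intro x
      refine (SS_mono hp hp1 (fun κ => (hD x κ).1) (fun κ => (hD x κ).2.1) hs.le
        (by linarith)).trans ?_
      exact hGW hFQ hFS hLV hFD hL1 ι p B R s₀ (h x) hp hp1 hB hR hs.le hs2
        (fun κ => ⟨(hD x κ).1.trans (hD x κ).2.1, (hD x κ).2.2⟩) (hr x)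
    have h3 : 0 ≤ ∑ x : ι, ((Ex p (h x)) ^ 2 + Real.exp (-R)) * Real.exp (8 * B * R * s₀) :=
      sum_nonneg (fun x _ => mul_nonneg (add_nonneg (sq_nonneg _) (Real.exp_pos _).le)
        (Real.exp_pos _).le)
    calc p * (1 - p) * ∑ x : ι, SS p (DD L x) s₀
        ≤ p * (1 - p) * ∑ x : ι, ((Ex p (h x)) ^ 2 + Real.exp (-R)) *
            Real.exp (8 * B * R * s₀) := mul_le_mul_of_nonneg_left (sum_le_sum (fun x _ => h2 x)) hpp
      _ ≤ p * ∑ x : ι, ((Ex p (h x)) ^ 2 + Real.exp (-R)) * Real.exp (8 * B * R * s₀) :=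
          mul_le_mul_of_nonneg_right (by nlinarith) h3
      _ = _ := by
          rw [← sum_mul, sum_add_distrib, sum_const, card_univ, nsmul_eq_mul]
          ring
  rw [h1, hVr]
  calc ∑ T ∈ (univ : Finset (Finset ι)).filter (fun T => T ≠ ∅), (fh p L T) ^ 2 * ρ ^ T.card
      ≤ ∑ T ∈ (univ : Finset (Finset ι)).filter (fun T => T ≠ ∅), (ρ ^ k * (fh p L T) ^ 2 +
        (s₀⁻¹) ^ k * ((T.card : ℝ) * ((fh p L T) ^ 2 * s₀ ^ (T.card - 1)))) :=
        sum_le_sum (fun T hT => hterm T (mem_filter.mp hT).2)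
    _ = (s₀⁻¹) ^ k * ∑ T ∈ (univ : Finset (Finset ι)).filter (fun T => T ≠ ∅),
          (T.card : ℝ) * ((fh p L T) ^ 2 * s₀ ^ (T.card - 1)) +
        ρ ^ k * ∑ T ∈ (univ : Finset (Finset ι)).filter (fun T => T ≠ ∅), (fh p L T) ^ 2 := by
        rw [sum_add_distrib, mul_sum, mul_sum, add_comm]
    _ ≤ (s₀⁻¹) ^ k * ∑ T : Finset ι, (T.card : ℝ) * ((fh p L T) ^ 2 * s₀ ^ (T.card - 1)) +
        ρ ^ k * ∑ T ∈ (univ : Finset (Finset ι)).filter (fun T => T ≠ ∅), (fh p L T) ^ 2 := by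
        refine add_le_add (mul_le_mul_of_nonneg_left ?_ (by positivity)) le_rfl
        refine sum_le_sum_of_subset_of_nonneg (filter_subset _ _) (fun T _ _ => ?_)
        have := hw T
        positivity
    _ ≤ (s₀⁻¹) ^ k * (Real.exp (8 * B * R * s₀) *
        (p * ∑ x : ι, (Ex p (h x)) ^ 2 + p * Fintype.card ι * Real.exp (-R))) +
        ρ ^ k * ∑ T ∈ (univ : Finset (Finset ι)).filter (fun T => T ≠ ∅), (fh p L T) ^ 2 := by
        refine add_le_add (mul_le_mul_of_nonneg_left hlow (by positivity)) le_rfl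
    _ = _ := by ring

end Pool.Agent.Q124.PN
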