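import Pool.Agent.Q124.PN.Base

/-!
# Project PN, job GW: growth of the noise function
-/

set_option autoImplicit false

namespace Pool.Agent.Q124.PN

open Finset Pool.Agent.Q295.PN

section bern

variable {ι : Type} [Fintype ι] [DecidableEq ι]

/-- The derivative of the noise function. -/
noncomputable def dS (p : ℝ) (f : (ι → Bool) → ℝ) (s : ℝ) : ℝ :=
  ∑ V : Finset ι, ((V.card : ℝ) * s ^ (V.card - 1) * (1 - s) ^ (Fintype.card ι - V.card) -
    s ^ V.card * (((Fintype.card ι - V.card : ℕ) : ℝ) *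
      (1 - s) ^ (Fintype.card ι - V.card - 1))) * QQ p f V

theorem hasDerivAt_SS (p : ℝ) (f : (ι → Bool) → ℝ) (s : ℝ) :
    HasDerivAt (fun t => SS p f t) (dS p f s) s := by
  unfold SS dS
  refine HasDerivAt.fun_sum (fun V _ => ?_)
  refine HasDerivAt.mul_const ?_ _
  have h1 : HasDerivAt (fun t : ℝ => t ^ V.card) ((V.card : ℝ) * s ^ (V.card - 1)) s :=
    hasDerivAt_pow _ _
  have h2 : HasDerivAt (fun t : ℝ => (1 - t) ^ (Fintype.card ι - V.card))
      (((Fintype.card ι - V.card : ℕ) : ℝ) * (1 - s) ^ (Fintype.card ι - V.card - 1) * (0 - 1)) s :=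
    (((hasDerivAt_const s (1 : ℝ)).sub (hasDerivAt_id s)).pow _)
  have h3 := h1.mul h2
  refine h3.congr_deriv ?_
  ring

theorem dS_eq (p : ℝ) (f : (ι → Bool) → ℝ) (s : ℝ) :
    (1 - s) * dS p f s = ∑ V : Finset ι, s ^ V.card * (1 - s) ^ (Fintype.card ι - V.card) *
      ∑ y ∈ univ \ V, (QQ p f (insert y V) - QQ p f V) := by
  have hA : ∑ V : Finset ι, (V.card : ℝ) * s ^ (V.card - 1) *
      (1 - s) ^ (Fintype.card ι - V.card) * QQ p f V =
      ∑ V : Finset ι, ∑ y ∈ univ \ V, s ^ V.card * (1 - s) ^ (Fintype.card ι - V.card - 1) *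
        QQ p f (insert y V) := by
    rw [← sum_mem_eq_sum_not_mem (fun V y => s ^ V.card *
      (1 - s) ^ (Fintype.card ι - V.card - 1) * QQ p f (insert y V))]
    refine sum_congr rfl (fun V _ => ?_)
    have : ∀ y ∈ V, s ^ (V.erase y).card * (1 - s) ^ (Fintype.card ι - (V.erase y).card - 1) *
        QQ p f (insert y (V.erase y)) = s ^ (V.card - 1) *
          (1 - s) ^ (Fintype.card ι - V.card) * QQ p f V := by
      intro y hy
      rw [insert_erase hy, card_erase_of_mem hy]
      have h1 : 1 ≤ V.card := card_pos.mpr ⟨y, hy⟩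
      rw [show Fintype.card ι - (V.card - 1) - 1 = Fintype.card ι - V.card by omega]
    rw [sum_congr rfl this, sum_const, nsmul_eq_mul]
    ring
  have hB : ∑ V : Finset ι, s ^ V.card * (((Fintype.card ι - V.card : ℕ) : ℝ) *
      (1 - s) ^ (Fintype.card ι - V.card - 1)) * QQ p f V =
      ∑ V : Finset ι, ∑ y ∈ univ \ V, s ^ V.card * (1 - s) ^ (Fintype.card ι - V.card - 1) *
        QQ p f V := by
    refine sum_congr rfl (fun V _ => ?_)
    rw [sum_const, card_univ_sdiff, nsmul_eq_mul]
    ring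
  have hC : dS p f s = ∑ V : Finset ι, ∑ y ∈ univ \ V, s ^ V.card *
      (1 - s) ^ (Fintype.card ι - V.card - 1) * (QQ p f (insert y V) - QQ p f V) := by
    unfold dS
    simp only [sub_mul, mul_sub, sum_sub_distrib]
    rw [← hA, ← hB]
  rw [hC, mul_sum]
  refine sum_congr rfl (fun V _ => ?_)
  rw [mul_sum, mul_sum]
  refine sum_congr rfl (fun y hy => ?_)
  have hy' : y ∉ V := (mem_sdiff.mp hy).2
  have h1 : V.card < Fintype.card ι := by
    rw [← card_univ]
    exact card_lt_card ((ssubset_iff_of_subset (subset_univ _)).mpr ⟨y, mem_univ _, hy'⟩)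
  obtain ⟨m, hm⟩ : ∃ m, Fintype.card ι - V.card = m + 1 := ⟨Fintype.card ι - V.card - 1, by omega⟩
  rw [hm, show m + 1 - 1 = m by omega, pow_succ]
  ring

end bern

/-- **JOB GW.** -/
theorem gw : S_GW := by
  intro hFQ hFS hLV hFD hL1 ι _ _ p B R s g hp hp1 hB hR hs hs2 hg hr
  have hRB : (0 : ℝ) < 8 * B * R := by positivity
  -- the differential inequality
  have hd : ∀ t : ℝ, 0 ≤ t → t ≤ 1 / 2 →
      dS p g t ≤ 8 * B * (R * SS p g t + Real.exp (-R)) := by
    intro t ht ht2
    have h1 : (1 - t) * dS p g t ≤ 4 * B * (R * SS p g t + Real.exp (-R)) := by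
      rw [dS_eq]
      calc ∑ V : Finset ι, t ^ V.card * (1 - t) ^ (Fintype.card ι - V.card) *
            ∑ y ∈ univ \ V, (QQ p g (insert y V) - QQ p g V)
          ≤ ∑ V : Finset ι, t ^ V.card * (1 - t) ^ (Fintype.card ι - V.card) *
            (4 * B * (R * QQ p g V + Real.exp (-R))) :=
            sum_le_sum (fun V _ => mul_le_mul_of_nonneg_left
              (hLV hFQ hFD hL1 ι p B R g V hp hp1 hB (by linarith) hg hr)
              (mul_nonneg (pow_nonneg ht _) (pow_nonneg (by linarith) _)))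
        _ = ∑ V : Finset ι, (4 * B * R * (t ^ V.card * (1 - t) ^ (Fintype.card ι - V.card) *
              QQ p g V) + 4 * B * Real.exp (-R) *
              (t ^ V.card * (1 - t) ^ (Fintype.card ι - V.card))) :=
            sum_congr rfl (fun V _ => by ring)
        _ = 4 * B * (R * SS p g t + Real.exp (-R)) := by
            rw [sum_add_distrib, ← mul_sum, ← mul_sum, sum_pow_weights]
            unfold SS
            ring
    have h2 : 0 ≤ SS p g t := SS_nonneg hp hp1 g ht (by linarith)
    have h3 : 0 ≤ 4 * B * (R * SS p g t + Real.exp (-R)) := by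
      have := Real.exp_pos (-R)
      positivity
    by_cases h4 : 0 ≤ dS p g t
    · have h5 : 1 / 2 * dS p g t ≤ (1 - t) * dS p g t :=
        mul_le_mul_of_nonneg_right (by linarith) h4
      linarith
    · push Not at h4
      linarith
  -- Gronwall
  have hanti : AntitoneOn (fun t => (SS p g t + Real.exp (-R) / R) * Real.exp (-(8 * B * R) * t))
      (Set.Icc (0 : ℝ) (1 / 2)) := by
    have hD : ∀ t : ℝ, HasDerivAt
        (fun t => (SS p g t + Real.exp (-R) / R) * Real.exp (-(8 * B * R) * t))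
        (dS p g t * Real.exp (-(8 * B * R) * t) + (SS p g t + Real.exp (-R) / R) *
          (Real.exp (-(8 * B * R) * t) * (-(8 * B * R) * 1))) t := by
      intro t
      have h1 : HasDerivAt (fun t => SS p g t + Real.exp (-R) / R) (dS p g t) t :=
        (hasDerivAt_SS p g t).add_const _
      have h2 : HasDerivAt (fun t : ℝ => Real.exp (-(8 * B * R) * t))
          (Real.exp (-(8 * B * R) * t) * (-(8 * B * R) * 1)) t :=
        ((hasDerivAt_id t).const_mul (-(8 * B * R))).exp
      exact h1.mul h2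
    refine antitoneOn_of_deriv_nonpos (convex_Icc _ _)
      (fun t _ => (hD t).continuousAt.continuousWithinAt)
      (fun t _ => (hD t).differentiableAt.differentiableWithinAt) (fun t ht => ?_)
    rw [interior_Icc] at ht
    rw [(hD t).deriv]
    have h1 := hd t ht.1.le ht.2.le
    have h2 : 0 < Real.exp (-(8 * B * R) * t) := Real.exp_pos _
    have h3 : dS p g t * Real.exp (-(8 * B * R) * t) + (SS p g t + Real.exp (-R) / R) *
          (Real.exp (-(8 * B * R) * t) * (-(8 * B * R) * 1)) =
        (dS p g t - 8 * B * (R * SS p g t + R * (Real.exp (-R) / R))) *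
          Real.exp (-(8 * B * R) * t) := by ring
    rw [h3, mul_div_cancel₀ _ (by linarith : R ≠ 0)]
    exact mul_nonpos_of_nonpos_of_nonneg (by linarith) h2.le
  have h0 : (0 : ℝ) ∈ Set.Icc (0 : ℝ) (1 / 2) := ⟨le_refl _, by norm_num⟩
  have h1 := hanti h0 ⟨hs, hs2⟩ hs
  simp only [mul_zero, Real.exp_zero, mul_one] at h1
  have h2 : SS p g s + Real.exp (-R) / R ≤
      (SS p g 0 + Real.exp (-R) / R) * Real.exp (8 * B * R * s) := by
    have h3 : 0 < Real.exp (8 * B * R * s) := Real.exp_pos _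
    have h4 : Real.exp (-(8 * B * R) * s) * Real.exp (8 * B * R * s) = 1 := by
      rw [← Real.exp_add, show -(8 * B * R) * s + 8 * B * R * s = 0 by ring, Real.exp_zero]
    calc SS p g s + Real.exp (-R) / R
        = (SS p g s + Real.exp (-R) / R) * Real.exp (-(8 * B * R) * s) *
            Real.exp (8 * B * R * s) := by rw [mul_assoc, h4, mul_one]
      _ ≤ _ := mul_le_mul_of_nonneg_right h1 h3.le
  have h5 : SS p g 0 = (Ex p g) ^ 2 := by
    rw [SS_zero]
    exact (hFQ ι p g hp hp1).2.1
  have h6 : 0 ≤ Real.exp (-R) / R := div_nonneg (Real.exp_pos _).le (by linarith)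
  have h7 : Real.exp (-R) / R ≤ Real.exp (-R) := div_le_self (Real.exp_pos _).le hR
  rw [h5] at h2
  calc SS p g s ≤ SS p g s + Real.exp (-R) / R := by linarith
    _ ≤ ((Ex p g) ^ 2 + Real.exp (-R) / R) * Real.exp (8 * B * R * s) := h2
    _ ≤ ((Ex p g) ^ 2 + Real.exp (-R)) * Real.exp (8 * B * R * s) :=
        mul_le_mul_of_nonneg_right (by linarith) (Real.exp_pos _).le

end Pool.Agent.Q124.PN
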