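import Pool.Agent.Q124.PN.Base

/-!
# Project PN, job LV: the level one inequality conditionally on some coordinates
-/

set_option autoImplicit false

namespace Pool.Agent.Q124.PN

open Finset Pool.Agent.Q295.PN

section bern

variable {ι : Type} [Fintype ι] [DecidableEq ι]

theorem mix_update_of_mem {V : Finset ι} {y : ι} (hy : y ∈ V) (κ κ' : ι → Bool) (b : Bool) :
    mix V κ (Function.update κ' y b) = mix V κ κ' := by
  funext i
  unfold mix
  by_cases hi : i ∈ V
  · simp [hi]
  · have : i ≠ y := fun h => hi (h ▸ hy)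
    simp [hi, this]

theorem mix_update_of_not_mem {V : Finset ι} {y : ι} (hy : y ∉ V) (κ κ' : ι → Bool) (b : Bool) :
    mix V κ (Function.update κ' y b) = Function.update (mix V κ κ') y b := by
  funext i
  unfold mix
  by_cases hi : i ∈ V
  · have : i ≠ y := fun h => hy (h ▸ hi)
    simp [hi, this]
  · by_cases hiy : i = y
    · subst hiy
      simp [hi]
    · simp [hi, hiy]

theorem QQ_insert (hFQ : S_FQ) (hFD : S_FD) {p : ℝ} (hp : 0 < p) (hp1 : p < 1)
    (g : (ι → Bool) → ℝ) {V : Finset ι} {y : ι} (hy : y ∉ V) :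
    QQ p g (insert y V) - QQ p g V = p * (1 - p) * QQ p (DD g y) V := by
  rw [(hFQ ι p g hp hp1).1 (insert y V), (hFQ ι p g hp hp1).1 V, (hFQ ι p (DD g y) hp hp1).1 V,
    sum_powerset_insert hy, add_sub_cancel_left, mul_sum]
  refine sum_congr rfl (fun T hT => ?_)
  have hyT : y ∉ T := fun h => hy (mem_powerset.mp hT h)
  rw [(hFD ι p g y T hp hp1).1 hyT, mul_pow, Real.sq_sqrt]
  exact mul_nonneg hp.le (by linarith)

theorem sq_log_bound {x R : ℝ} (hx : 0 ≤ x) (hx1 : x ≤ 1) :
    x ^ 2 * Real.log (1 / x) ≤ R * x ^ 2 + Real.exp (-R) := by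
  rcases eq_or_lt_of_le hx with h | h
  · rw [← h]
    simp
    exact (Real.exp_pos _).le
  · have h1 : Real.log (Real.exp (-R) / x) ≤ Real.exp (-R) / x - 1 :=
      Real.log_le_sub_one_of_pos (by positivity)
    rw [Real.log_div (Real.exp_pos _).ne' h.ne', Real.log_exp] at h1
    have h2 : Real.log (1 / x) = - Real.log x := by
      rw [Real.log_div one_ne_zero h.ne', Real.log_one, zero_sub]
    rw [h2]
    have h3 : - Real.log x ≤ R + Real.exp (-R) / x := by linarith
    calc x ^ 2 * (- Real.log x) ≤ x ^ 2 * (R + Real.exp (-R) / x) :=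
          mul_le_mul_of_nonneg_left h3 (sq_nonneg _)
      _ = R * x ^ 2 + x * Real.exp (-R) := by
          field_simp
      _ ≤ R * x ^ 2 + 1 * Real.exp (-R) := by
          have := mul_le_mul_of_nonneg_right hx1 (Real.exp_pos (-R)).le
          linarith
      _ = R * x ^ 2 + Real.exp (-R) := by ring

end bern

/-- **JOB LV.** -/
theorem lv : S_LV := by
  intro hFQ hFD hL1 ι _ _ p B R g V hp hp1 hB hR hg hr
  have key : ∀ κ : ι → Bool, p * (1 - p) * ∑ y ∈ univ \ V, (Av p V (DD g y) κ) ^ 2 ≤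
      4 * B * (R * (Av p V g κ) ^ 2 + Real.exp (-R)) := by
    intro κ
    have h1 := hL1 ι p B (fun κ' => g (mix V κ κ')) hp hp1 hB (fun κ' => hg _) (by
      intro y κ'
      by_cases hy : y ∈ V
      · simp only [mix_update_of_mem hy]
        have h0 := (hg (mix V κ κ')).1
        have : g (mix V κ κ') ≤ B * g (mix V κ κ') := by
          nlinarith
        exact ⟨this, this⟩
      · simp only [mix_update_of_not_mem hy]
        exact hr y _)
    have h2 : ∀ y ∈ univ \ V, (Av p V (DD g y) κ) ^ 2 =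
        (Ex p (DD (fun κ' => g (mix V κ κ')) y)) ^ 2 := by
      intro y hy
      have hy' : y ∉ V := (mem_sdiff.mp hy).2
      have h3 : DD (fun κ' => g (mix V κ κ')) y = fun κ' => DD g y (mix V κ κ') := by
        funext κ'
        simp only [DD, mix_update_of_not_mem hy']
      rw [h3]
      rfl
    have h4 : ∑ y ∈ univ \ V, (Av p V (DD g y) κ) ^ 2 ≤
        ∑ y, (Ex p (DD (fun κ' => g (mix V κ κ')) y)) ^ 2 := by
      rw [sum_congr rfl h2]
      exact sum_le_sum_of_subset_of_nonneg (subset_univ _) (fun _ _ _ => sq_nonneg _)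
    have h5 : Ex p (fun κ' => g (mix V κ κ')) = Av p V g κ := rfl
    rw [h5] at h1
    have h6 : 0 ≤ Av p V g κ := Ex_nonneg hp hp1 (fun κ' => (hg _).1)
    have h7 : Av p V g κ ≤ 1 := by
      have := Ex_mono hp hp1 (f := fun κ' => g (mix V κ κ')) (g := fun _ => (1 : ℝ))
        (fun κ' => (hg _).2)
      rw [Ex_const] at this
      exact this
    have h8 := sq_log_bound (R := R) h6 h7
    have h9 : 0 ≤ p * (1 - p) := mul_nonneg hp.le (by linarith)
    calc p * (1 - p) * ∑ y ∈ univ \ V, (Av p V (DD g y) κ) ^ 2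
        ≤ p * (1 - p) * ∑ y, (Ex p (DD (fun κ' => g (mix V κ κ')) y)) ^ 2 :=
          mul_le_mul_of_nonneg_left h4 h9
      _ ≤ 4 * B * (Av p V g κ) ^ 2 * Real.log (1 / Av p V g κ) := h1
      _ = 4 * B * ((Av p V g κ) ^ 2 * Real.log (1 / Av p V g κ)) := by ring
      _ ≤ 4 * B * (R * (Av p V g κ) ^ 2 + Real.exp (-R)) :=
          mul_le_mul_of_nonneg_left h8 (by linarith)
  calc ∑ y ∈ univ \ V, (QQ p g (insert y V) - QQ p g V)
      = ∑ y ∈ univ \ V, p * (1 - p) * QQ p (DD g y) V :=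
        sum_congr rfl (fun y hy => QQ_insert hFQ hFD hp hp1 g (mem_sdiff.mp hy).2)
    _ = Ex p (fun κ => p * (1 - p) * ∑ y ∈ univ \ V, (Av p V (DD g y) κ) ^ 2) := by
        rw [Ex_mul, Ex_sum, mul_sum]
        rfl
    _ ≤ Ex p (fun κ => 4 * B * (R * (Av p V g κ) ^ 2 + Real.exp (-R))) := Ex_mono hp hp1 key
    _ = 4 * B * (R * QQ p g V + Real.exp (-R)) := by
        rw [Ex_mul, Ex_add, Ex_mul, Ex_const]
        rfl

end Pool.Agent.Q124.PN
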