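import Pool.Agent.Q295.PN.StmA

/-!
# Project PN, job MC: basic facts about longest chains
-/

set_option autoImplicit false

namespace Pool.Agent.Q124.PN

open Finset

section chains

variable {ι : Type} [Fintype ι] [DecidableEq ι] [PartialOrder ι]

theorem mc_ge {A C : Finset ι} (h : C ⊆ A) (hC : IsChain (· ≤ ·) (C : Set ι)) :
    C.card ≤ Pool.Agent.Q295.PN.mc A := by
  classical
  unfold Pool.Agent.Q295.PN.mc
  refine Finset.le_sup (f := Finset.card) ?_
  rw [mem_filter, mem_powerset]
  exact ⟨h, hC⟩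

theorem mc_attained (A : Finset ι) : ∃ C : Finset ι, C ⊆ A ∧ IsChain (· ≤ ·) (C : Set ι) ∧
    C.card = Pool.Agent.Q295.PN.mc A := by
  classical
  have hne : (A.powerset.filter (fun C : Finset ι => IsChain (· ≤ ·) (C : Set ι))).Nonempty :=
    ⟨∅, by rw [mem_filter, mem_powerset]; exact ⟨empty_subset _, by simp⟩⟩
  obtain ⟨C, hC, h⟩ := Finset.exists_mem_eq_sup _ hne Finset.card
  rw [mem_filter, mem_powerset] at hC
  refine ⟨C, hC.1, hC.2, ?_⟩
  unfold Pool.Agent.Q295.PN.mc
  rw [← h]

theorem mc_mono {A B : Finset ι} (h : A ⊆ B) :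
    Pool.Agent.Q295.PN.mc A ≤ Pool.Agent.Q295.PN.mc B := by
  obtain ⟨C, hC, hC', hc⟩ := mc_attained A
  rw [← hc]
  exact mc_ge (hC.trans h) hC'

theorem isChain_union {C₁ C₂ : Finset ι} {x : ι} (h1 : IsChain (· ≤ ·) (C₁ : Set ι))
    (h2 : IsChain (· ≤ ·) (C₂ : Set ι)) (hx1 : ∀ y ∈ C₁, x < y) (hx2 : ∀ y ∈ C₂, y < x) :
    IsChain (· ≤ ·) ((C₁ ∪ C₂ : Finset ι) : Set ι) := by
  intro a ha b hb hab
  rw [mem_coe, mem_union] at ha hb
  rcases ha with ha | ha <;> rcases hb with hb | hb
  · exact h1 ha hb hab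
  · exact Or.inr ((hx2 b hb).le.trans (hx1 a ha).le)
  · exact Or.inl ((hx2 a ha).le.trans (hx1 b hb).le)
  · exact h2 ha hb hab

theorem card_union_of_lt {C₁ C₂ : Finset ι} {x : ι} (hx1 : ∀ y ∈ C₁, x < y)
    (hx2 : ∀ y ∈ C₂, y < x) : (C₁ ∪ C₂).card = C₁.card + C₂.card := by
  refine card_union_of_disjoint (disjoint_left.mpr (fun y h1 h2 => ?_))
  exact absurd (hx1 y h1) (hx2 y h2).asymm

open Classical in
theorem mc_split (A : Finset ι) (x : ι) :
    Pool.Agent.Q295.PN.mc (A.filter (fun y => x < y)) +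
      Pool.Agent.Q295.PN.mc (A.filter (fun y => y < x)) ≤ Pool.Agent.Q295.PN.mc (A.erase x) ∧
    Pool.Agent.Q295.PN.mc (A.filter (fun y => x < y)) +
      Pool.Agent.Q295.PN.mc (A.filter (fun y => y < x)) + 1 ≤
        Pool.Agent.Q295.PN.mc (insert x A) := by
  obtain ⟨C₁, h1, h1', hc1⟩ := mc_attained (A.filter (fun y => x < y))
  obtain ⟨C₂, h2, h2', hc2⟩ := mc_attained (A.filter (fun y => y < x))
  have hx1 : ∀ y ∈ C₁, x < y := fun y hy => (mem_filter.mp (h1 hy)).2
  have hx2 : ∀ y ∈ C₂, y < x := fun y hy => (mem_filter.mp (h2 hy)).2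
  have hch := isChain_union h1' h2' hx1 hx2
  have hcard := card_union_of_lt hx1 hx2
  have hsub : C₁ ∪ C₂ ⊆ A.erase x := by
    intro y hy
    rw [mem_erase]
    rcases mem_union.mp hy with hy | hy
    · exact ⟨(hx1 y hy).ne', (mem_filter.mp (h1 hy)).1⟩
    · exact ⟨(hx2 y hy).ne, (mem_filter.mp (h2 hy)).1⟩
  refine ⟨?_, ?_⟩
  · rw [← hc1, ← hc2, ← hcard]
    exact mc_ge hsub hch
  · have hx : x ∉ C₁ ∪ C₂ := fun h => (mem_erase.mp (hsub h)).1 rfl
    rw [← hc1, ← hc2, ← hcard, ← card_insert_of_notMem hx]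
    refine mc_ge (insert_subset_insert _ (hsub.trans (erase_subset _ _))) ?_
    rw [coe_insert]
    refine hch.insert (fun b hb _ => ?_)
    rw [mem_coe, mem_union] at hb
    rcases hb with hb | hb
    · exact Or.inl (hx1 b hb).le
    · exact Or.inr (hx2 b hb).le

end chains

open Classical in
/-- **JOB MC.** -/
theorem mc : Pool.Agent.Q295.PN.S_MC := by
  intro ι _ _ _
  refine ⟨fun A B h => mc_mono h, ?_, mc_attained, fun A C h hC => mc_ge h hC,
    fun A x => (mc_split A x).1, ?_⟩
  · intro A w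
    obtain ⟨C, hC, hC', hc⟩ := mc_attained (insert w A)
    rw [← hc]
    have h1 : C.erase w ⊆ A := by
      intro y hy
      rw [mem_erase] at hy
      rcases mem_insert.mp (hC hy.2) with h | h
      · exact absurd h hy.1
      · exact h
    have h2 := mc_ge h1 (hC'.mono (by rw [coe_erase]; exact Set.sdiff_subset))
    have h3 := pred_card_le_card_erase (s := C) (a := w)
    omega
  · intro A x
    refine le_antisymm ?_ (max_le (mc_mono ((erase_subset _ _).trans (subset_insert _ _)))
      (mc_split A x).2)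
    obtain ⟨C, hC, hC', hc⟩ := mc_attained (insert x A)
    rw [← hc]
    by_cases hx : x ∈ C
    · refine le_max_of_le_right ?_
      have h1 : C.filter (fun y => x < y) ⊆ A.filter (fun y => x < y) := by
        intro y hy
        rw [mem_filter] at hy ⊢
        refine ⟨?_, hy.2⟩
        rcases mem_insert.mp (hC hy.1) with h | h
        · exact absurd h hy.2.ne'
        · exact h
      have h2 : C.filter (fun y => y < x) ⊆ A.filter (fun y => y < x) := by
        intro y hy
        rw [mem_filter] at hy ⊢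
        refine ⟨?_, hy.2⟩
        rcases mem_insert.mp (hC hy.1) with h | h
        · exact absurd h hy.2.ne
        · exact h
      have h3 := mc_ge h1 (hC'.mono (coe_subset.mpr (filter_subset _ _)))
      have h4 := mc_ge h2 (hC'.mono (coe_subset.mpr (filter_subset _ _)))
      have h5 : C ⊆ insert x (C.filter (fun y => x < y) ∪ C.filter (fun y => y < x)) := by
        intro y hy
        rw [mem_insert, mem_union, mem_filter, mem_filter]
        by_cases hyx : y = x
        · exact Or.inl hyx
        · right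
          rcases hC' hx hy (Ne.symm hyx) with h | h
          · exact Or.inl ⟨hy, lt_of_le_of_ne h (Ne.symm hyx)⟩
          · exact Or.inr ⟨hy, lt_of_le_of_ne h hyx⟩
      have h6 := card_le_card h5
      have h7 := card_insert_le x (C.filter (fun y => x < y) ∪ C.filter (fun y => y < x))
      have h8 := card_union_le (C.filter (fun y => x < y)) (C.filter (fun y => y < x))
      omega
    · refine le_max_of_le_left (mc_ge ?_ hC')
      intro y hy
      rw [mem_erase]
      have hyx : y ≠ x := fun h => hx (h ▸ hy)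
      rcases mem_insert.mp (hC hy) with h | h
      · exact absurd h hyx
      · exact ⟨hyx, h⟩

end Pool.Agent.Q124.PN
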